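import Pool.Agent.J4H80.ZE.ZeroEst2

set_option autoImplicit false

/-!
# The zero estimate: all polynomials
-/

namespace Pool.Agent.J4H80.ZE

open Polynomial Pool.Agent.H397R2.PP

theorem coeff_swap {A : Type*} [CommRing A] (P : A[X][X]) (i j : ℕ) :
    ((Bivariate.swap P).coeff j).coeff i = (P.coeff i).coeff j := by
  induction P using Polynomial.induction_on' with
  | add p q hp hq => rw [map_add, coeff_add, coeff_add, hp, hq, coeff_add, coeff_add]
  | monomial n a =>
    induction a using Polynomial.induction_on' with
    | add p q hp hq =>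
      rw [map_add, map_add, coeff_add, coeff_add, hp, hq, coeff_add, coeff_add]
    | monomial m r =>
      rw [Bivariate.swap_monomial_monomial, coeff_monomial, coeff_monomial]
      split_ifs with h1 h2 h2
      · rw [coeff_monomial, coeff_monomial, if_pos h2, if_pos h1]
      · rw [coeff_monomial, if_neg h2, coeff_zero]
      · rw [coeff_monomial, if_neg h1, coeff_zero]
      · rfl

theorem Bd_swap {A : Type*} [CommRing A] (P : A[X][X]) :
    Bd (Bivariate.swap P).natDegree P.natDegree P := by
  refine ⟨le_rfl, fun i => ?_⟩
  rw [natDegree_le_iff_coeff_eq_zero]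
  intro j hj
  rw [← coeff_swap, coeff_eq_zero_of_natDegree_lt hj, coeff_zero]

theorem swap_natDegree_le {A : Type*} [CommRing A] {a b : ℕ} {P : A[X][X]} (h : Bd a b P) :
    (Bivariate.swap P).natDegree ≤ a := by
  rw [natDegree_le_iff_coeff_eq_zero]
  intro j hj
  ext i
  rw [coeff_swap, coeff_zero]
  exact coeff_eq_zero_of_natDegree_lt (lt_of_le_of_lt (h.2 i) hj)

theorem order_le_of {f : S} {b : ℕ} (h : ∀ n, (PowerSeries.X : S) ^ n ∣ f → n ≤ b) :
    f.order ≤ b := by
  have h1 : ¬ (PowerSeries.X : S) ^ (b + 1) ∣ f := fun h2 => by
    have := h _ h2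
    omega
  rw [PowerSeries.X_pow_dvd_iff] at h1
  push Not at h1
  obtain ⟨m, hm, hm2⟩ := h1
  refine (PowerSeries.order_le m hm2).trans ?_
  exact_mod_cast (by omega : m ≤ b)

theorem le_of_order {f : S} {b n : ℕ} (h : f.order ≤ b) (hn : (PowerSeries.X : S) ^ n ∣ f) : n ≤ b := by
  have h1 : (n : ℕ∞) ≤ f.order := by
    apply PowerSeries.nat_le_order
    intro i hi
    exact (PowerSeries.X_pow_dvd_iff.1 hn) i hi
  exact_mod_cast h1.trans h

/-- the zero estimate for the degrees of the polynomial -/
theorem order_ev (P : k[X][X]) (hP : P ≠ 0) :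
    (ev P).order ≤ ((16 * (Bivariate.swap P).natDegree * P.natDegree +
      (Bivariate.swap P).natDegree + P.natDegree : ℕ) : ℕ∞) := by
  induction P using WfDvdMonoid.induction_on_irreducible with
  | zero => exact absurd rfl hP
  | unit u hu =>
    have h1 : IsUnit (ev u) := hu.map ev
    have h2 : (ev u).order = 0 := PowerSeries.order_zero_of_unit h1
    rw [h2]
    exact zero_le
  | mul a i ha hi ih =>
    have ih' := ih ha
    have h1 : (ev i).order ≤ ((16 * (Bivariate.swap i).natDegree * i.natDegree +
      (Bivariate.swap i).natDegree + i.natDegree : ℕ) : ℕ∞) := by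
      apply order_le_of
      intro n hn
      by_cases hd : i.natDegree = 0
      · rw [natDegree_eq_zero] at hd
        obtain ⟨p, hp⟩ := hd
        have hp0 : p ≠ 0 := by
          rintro rfl
          apply hi.ne_zero
          rw [← hp, C_0]
        rw [← hp, ev_C] at hn
        have h2 := dvd_aeval_X hp0 hn
        have h3 : p.natDegree ≤ (Bivariate.swap i).natDegree := by
          have := (Bd_swap i).2 0
          rwa [← hp, coeff_C_zero, hp] at this
        omega
      · by_cases hd' : (Bivariate.swap i).natDegree = 0
        · rw [natDegree_eq_zero] at hd'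
          obtain ⟨q, hq⟩ := hd'
          have hq0 : q ≠ 0 := by
            rintro rfl
            apply hi.ne_zero
            have : Bivariate.swap i = 0 := by rw [← hq, C_0]
            exact (map_eq_zero_iff _ (AlgEquiv.injective _)).1 this
          have h2 : ev i = aeval (Db : S) q := by
            unfold ev
            rw [← Bivariate.aevalAeval_swap, ← hq]
            exact aevalAeval_C _ _ _
          rw [h2] at hn
          have h3 : n ≤ q.natDegree := by
            by_contra hlt
            apply Pool.Agent.J4H80.IG.not_dvd_evS hq0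
            exact (pow_dvd_pow _ (by omega)).trans hn
          have h4 : q.natDegree ≤ i.natDegree := by
            have := (Bd_swap (Bivariate.swap i)).2 0
            rwa [Bivariate.swap_swap_apply, ← hq, coeff_C_zero] at this
          omega
        · have := irr_case hi hd hd' (Bd_swap i) hn
          omega
    rw [map_mul, PowerSeries.order_mul]
    refine (add_le_add h1 ih').trans ?_
    have e1 : (i * a).natDegree = i.natDegree + a.natDegree := natDegree_mul hi.ne_zero ha
    have hi' : Bivariate.swap i ≠ 0 := fun h => hi.ne_zero ((map_eq_zero_iff _ (AlgEquiv.injective _)).1 h)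
    have ha' : Bivariate.swap a ≠ 0 := fun h => ha ((map_eq_zero_iff _ (AlgEquiv.injective _)).1 h)
    have e2 : (Bivariate.swap (i * a)).natDegree =
        (Bivariate.swap i).natDegree + (Bivariate.swap a).natDegree := by
      rw [map_mul, natDegree_mul hi' ha']
    rw [e1, e2]
    have h5 : (16 * (Bivariate.swap i).natDegree * i.natDegree + (Bivariate.swap i).natDegree + i.natDegree) +
        (16 * (Bivariate.swap a).natDegree * a.natDegree + (Bivariate.swap a).natDegree + a.natDegree) ≤
        16 * ((Bivariate.swap i).natDegree + (Bivariate.swap a).natDegree) * (i.natDegree + a.natDegree) +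
        ((Bivariate.swap i).natDegree + (Bivariate.swap a).natDegree) + (i.natDegree + a.natDegree) := by
      nlinarith [Nat.zero_le ((Bivariate.swap i).natDegree * a.natDegree),
        Nat.zero_le ((Bivariate.swap a).natDegree * i.natDegree)]
    exact_mod_cast h5

/-- the zero estimate -/
theorem zero_est {P : k[X][X]} (hP : P ≠ 0) {a b n : ℕ} (h : Bd a b P)
    (hn : (PowerSeries.X : S) ^ n ∣ ev P) : n ≤ 16 * a * b + a + b := by
  have h1 := le_of_order (order_ev P hP) hn
  have h2 := swap_natDegree_le h
  have h3 := h.1
  have h4 : (Bivariate.swap P).natDegree * P.natDegree ≤ a * b := Nat.mul_le_mul h2 h3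
  have e1 : 16 * (Bivariate.swap P).natDegree * P.natDegree =
    16 * ((Bivariate.swap P).natDegree * P.natDegree) := by ring
  have e2 : 16 * a * b = 16 * (a * b) := by ring
  omega

end Pool.Agent.J4H80.ZE
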