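import Mathlib.RingTheory.Polynomial.Resultant.Basic

set_option autoImplicit false

/-!
# Bidegrees of resultants
-/

namespace Pool.Agent.J4H80.ZE

open Polynomial

variable {A : Type*} [CommRing A]

/-- degree at most `b` in the outer variable and at most `a` in the inner one -/
def Bd (a b : ℕ) (P : A[X][X]) : Prop := P.natDegree ≤ b ∧ ∀ i, (P.coeff i).natDegree ≤ a

theorem Bd.mono {a b a' b' : ℕ} {P : A[X][X]} (h : Bd a b P) (ha : a ≤ a') (hb : b ≤ b') : Bd a' b' P :=
  ⟨h.1.trans hb, fun i => (h.2 i).trans ha⟩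

theorem Bd.zero (a b : ℕ) : Bd a b (0 : A[X][X]) := by
  constructor
  · rw [natDegree_zero]; exact Nat.zero_le _
  · intro i; rw [coeff_zero, natDegree_zero]; exact Nat.zero_le _

theorem Bd.one : Bd 0 0 (1 : A[X][X]) := by
  constructor
  · rw [natDegree_one]
  · intro i
    rw [coeff_one]
    split_ifs
    · rw [natDegree_one]
    · rw [natDegree_zero]

theorem Bd.add {a b : ℕ} {P Q : A[X][X]} (hP : Bd a b P) (hQ : Bd a b Q) : Bd a b (P + Q) := by
  constructor
  · exact (natDegree_add_le _ _).trans (max_le hP.1 hQ.1)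
  · intro i
    rw [coeff_add]
    exact (natDegree_add_le _ _).trans (max_le (hP.2 i) (hQ.2 i))

theorem Bd.neg {a b : ℕ} {P : A[X][X]} (hP : Bd a b P) : Bd a b (-P) := by
  constructor
  · rw [natDegree_neg]; exact hP.1
  · intro i
    rw [coeff_neg, natDegree_neg]
    exact hP.2 i

theorem Bd.sum {ι : Type*} (I : Finset ι) (f : ι → A[X][X]) {a b : ℕ} (h : ∀ i ∈ I, Bd a b (f i)) :
    Bd a b (∑ i ∈ I, f i) := by
  classical
  induction I using Finset.induction_on with
  | empty => rw [Finset.sum_empty]; exact Bd.zero _ _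
  | insert i I hi ih =>
    rw [Finset.sum_insert hi]
    exact (h i (Finset.mem_insert_self _ _)).add (ih fun j hj => h j (Finset.mem_insert_of_mem hj))

theorem Bd.mul {a b a' b' : ℕ} {P Q : A[X][X]} (hP : Bd a b P) (hQ : Bd a' b' Q) :
    Bd (a + a') (b + b') (P * Q) := by
  constructor
  · exact natDegree_mul_le.trans (Nat.add_le_add hP.1 hQ.1)
  · intro i
    rw [coeff_mul]
    exact natDegree_sum_le_of_forall_le _ _ fun p _ =>
      natDegree_mul_le.trans (Nat.add_le_add (hP.2 _) (hQ.2 _))

theorem Bd.prod {ι : Type*} (I : Finset ι) (f : ι → A[X][X]) (a b : ι → ℕ)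
    (h : ∀ i ∈ I, Bd (a i) (b i) (f i)) : Bd (∑ i ∈ I, a i) (∑ i ∈ I, b i) (∏ i ∈ I, f i) := by
  classical
  induction I using Finset.induction_on with
  | empty => rw [Finset.sum_empty, Finset.sum_empty, Finset.prod_empty]; exact Bd.one
  | insert i I hi ih =>
    rw [Finset.sum_insert hi, Finset.sum_insert hi, Finset.prod_insert hi]
    exact (h i (Finset.mem_insert_self _ _)).mul (ih fun j hj => h j (Finset.mem_insert_of_mem hj))

theorem Bd.det {n : ℕ} (M : Matrix (Fin n) (Fin n) A[X][X]) (a b : Fin n → ℕ)
    (h : ∀ i j, Bd (a j) (b j) (M i j)) : Bd (∑ j, a j) (∑ j, b j) M.det := by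
  rw [Matrix.det_apply]
  refine Bd.sum _ _ fun σ _ => ?_
  have h1 := Bd.prod Finset.univ (fun i => M (σ i) i) a b (fun i _ => h _ _)
  rcases Int.units_eq_one_or (Equiv.Perm.sign σ) with hs | hs
  · rw [hs, one_smul]
    exact h1
  · rw [hs, Units.neg_smul, one_smul]
    exact h1.neg

/-- the bidegree of a resultant of polynomials with coefficients in `A[X][X]` -/
theorem Bd.resultant (f g : A[X][X][X]) (m n a b a' b' : ℕ) (hf : ∀ i, Bd a b (f.coeff i))
    (hg : ∀ i, Bd a' b' (g.coeff i)) : Bd (m * a' + n * a) (m * b' + n * b) (f.resultant g m n) := by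
  unfold Polynomial.resultant
  have h := Bd.det (sylvester f g m n)
    (fun j => j.addCases (fun _ : Fin m => a') (fun _ : Fin n => a))
    (fun j => j.addCases (fun _ : Fin m => b') (fun _ : Fin n => b)) (by
      intro i j
      refine j.addCases (fun j => ?_) (fun j => ?_)
      · simp only [Fin.addCases_left, sylvester, Matrix.of_apply]
        split_ifs
        · exact hg _
        · exact Bd.zero _ _
      · simp only [Fin.addCases_right, sylvester, Matrix.of_apply]
        split_ifs
        · exact hf _
        · exact Bd.zero _ _)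
  rw [Fin.sum_univ_add, Fin.sum_univ_add] at h
  simp only [Fin.addCases_left, Fin.addCases_right, Finset.sum_const, Finset.card_univ,
    Fintype.card_fin, smul_eq_mul] at h
  exact h

theorem natDegree_det {n : ℕ} (M : Matrix (Fin n) (Fin n) A[X]) (a : Fin n → ℕ)
    (h : ∀ i j, (M i j).natDegree ≤ a j) : M.det.natDegree ≤ ∑ j, a j := by
  rw [Matrix.det_apply]
  refine natDegree_sum_le_of_forall_le _ _ fun σ _ => ?_
  have h1 : (∏ i, M (σ i) i).natDegree ≤ ∑ j, a j :=
    (natDegree_prod_le _ _).trans (Finset.sum_le_sum fun i _ => h _ _)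
  rcases Int.units_eq_one_or (Equiv.Perm.sign σ) with hs | hs
  · rw [hs, one_smul]
    exact h1
  · rw [hs, Units.neg_smul, one_smul, natDegree_neg]
    exact h1

/-- the degree of a resultant of polynomials with coefficients in `A[X]` -/
theorem natDegree_resultant (f g : A[X][X]) (m n a a' : ℕ) (hf : ∀ i, (f.coeff i).natDegree ≤ a)
    (hg : ∀ i, (g.coeff i).natDegree ≤ a') : (f.resultant g m n).natDegree ≤ m * a' + n * a := by
  unfold Polynomial.resultant
  have h := natDegree_det (sylvester f g m n)
    (fun j => j.addCases (fun _ : Fin m => a') (fun _ : Fin n => a)) (by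
      intro i j
      refine j.addCases (fun j => ?_) (fun j => ?_)
      · simp only [Fin.addCases_left, sylvester, Matrix.of_apply]
        split_ifs
        · exact hg _
        · rw [natDegree_zero]; exact Nat.zero_le _
      · simp only [Fin.addCases_right, sylvester, Matrix.of_apply]
        split_ifs
        · exact hf _
        · rw [natDegree_zero]; exact Nat.zero_le _)
  rw [Fin.sum_univ_add] at h
  simp only [Fin.addCases_left, Fin.addCases_right, Finset.sum_const, Finset.card_univ,
    Fintype.card_fin, smul_eq_mul] at h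
  exact h

end Pool.Agent.J4H80.ZE
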