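import Mathlib.FieldTheory.RatFunc.Luroth
import Mathlib.FieldTheory.Relrank
import Mathlib.FieldTheory.IsAlgClosed.AlgebraicClosure
import Mathlib.RingTheory.Polynomial.Resultant.Basic

set_option autoImplicit false

/-!
# Degrees of fields generated by two elements with a polynomial relation
-/

namespace Pool.Agent.J4H80.ZE

open Polynomial IntermediateField

variable {k : Type*} [Field k] {Ω : Type*} [Field Ω] [Algebra k Ω]

/-- the coefficient map `X ↦ t` -/
noncomputable def cm (t : Ω) : k[X] →+* k⟮t⟯ := (aeval (AdjoinSimple.gen k t) : k[X] →ₐ[k] k⟮t⟯)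

theorem cm_eq {t : Ω} (ht : Transcendental k t) : (cm t : k[X] →+* k⟮t⟯) =
    ((RatFunc.algEquivOfTranscendental t ht : RatFunc k ≃ₐ[k] k⟮t⟯).toRingEquiv :
      RatFunc k →+* k⟮t⟯).comp (algebraMap k[X] (RatFunc k)) :=
  RingHom.ext fun p => (RatFunc.algEquivOfTranscendental_algebraMap t ht p).symm

theorem irr_map {t : Ω} (ht : Transcendental k t) {P : k[X][X]} (hP : Irreducible P)
    (hd : P.natDegree ≠ 0) : Irreducible (P.map (cm t)) := by
  have h1 := ((hP.isPrimitive hd).irreducible_iff_irreducible_map_fraction_map (K := RatFunc k)).1 hP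
  rw [cm_eq ht, ← Polynomial.map_map]
  have h2 := (MulEquiv.irreducible_iff (Polynomial.mapEquiv
    (RatFunc.algEquivOfTranscendental t ht : RatFunc k ≃ₐ[k] k⟮t⟯).toRingEquiv)
    (x := P.map (algebraMap k[X] (RatFunc k)))).2 h1
  exact h2

theorem cm_inj {t : Ω} (ht : Transcendental k t) : Function.Injective (cm t : k[X] →+* k⟮t⟯) := by
  rw [cm_eq ht]
  rw [RingHom.coe_comp]
  exact (RingEquiv.injective _).comp (IsFractionRing.injective _ _)

theorem dvd_of_map {t : Ω} (ht : Transcendental k t) {P Q : k[X][X]} (hP : Irreducible P)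
    (hd : P.natDegree ≠ 0) (h : P.map (cm t) ∣ Q.map (cm t)) : P ∣ Q := by
  apply (hP.isPrimitive hd).dvd_of_fraction_map_dvd_fraction_map (K := RatFunc k)
  rw [cm_eq ht, ← Polynomial.map_map, ← Polynomial.map_map] at h
  exact (map_dvd_iff (Polynomial.mapEquiv
    (RatFunc.algEquivOfTranscendental t ht : RatFunc k ≃ₐ[k] k⟮t⟯).toRingEquiv)).1 h

theorem aeval_map_cm (t s : Ω) (P : k[X][X]) : aeval s (P.map (cm t)) = aevalAeval t s P := by
  have h : ((aeval s : (k⟮t⟯)[X] →ₐ[k⟮t⟯] Ω) : (k⟮t⟯)[X] →+* Ω).comp (Polynomial.mapRingHom (cm t)) =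
      (aevalAeval t s : k[X][X] →ₐ[k] Ω) := by
    ext
    · simp [cm]
    · simp [cm]
    · simp
  exact congrArg (fun f : k[X][X] →+* Ω => f P) h

theorem min_deg {t s : Ω} (ht : Transcendental k t) {P : k[X][X]} (hP : Irreducible P)
    (hd : P.natDegree ≠ 0) (h : aevalAeval t s P = 0) :
    IsIntegral k⟮t⟯ s ∧ (minpoly k⟮t⟯ s).natDegree = P.natDegree := by
  have h1 := irr_map ht hP hd
  have h2 : aeval s (P.map (cm t)) = 0 := by rw [aeval_map_cm, h]
  have h3 := minpoly.eq_of_irreducible h1 h2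
  have h4 : (P.map (cm t)).leadingCoeff ≠ 0 := leadingCoeff_ne_zero.2 h1.ne_zero
  constructor
  · rw [← isAlgebraic_iff_isIntegral]
    exact ⟨_, h1.ne_zero, h2⟩
  · rw [← h3, natDegree_mul_C (inv_ne_zero h4), natDegree_map_eq_of_injective (cm_inj ht)]

theorem rel_deg {F : IntermediateField k Ω} {s : Ω} (h : IsIntegral F s) :
    relfinrank F (F⟮s⟯.restrictScalars k) = (minpoly F s).natDegree := by
  have hle : F ≤ F⟮s⟯.restrictScalars k := by
    intro y hy
    exact (F⟮s⟯).algebraMap_mem ⟨y, hy⟩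
  rw [relfinrank_eq_finrank_of_le hle, ← adjoin.finrank h]
  rfl

theorem rel_pair {t s : Ω} (ht : Transcendental k t) {P : k[X][X]} (hP : Irreducible P)
    (hd : P.natDegree ≠ 0) (h : aevalAeval t s P = 0) :
    relfinrank k⟮t⟯ k⟮t, s⟯ = P.natDegree := by
  obtain ⟨h1, h2⟩ := min_deg ht hP hd h
  rw [← h2, ← rel_deg h1, adjoin_simple_adjoin_simple]

theorem trans_of {t s : Ω} (ht : Transcendental k t) {P : k[X][X]} (hP : Irreducible P)
    (hd : P.natDegree ≠ 0) (hd' : (Bivariate.swap P).natDegree ≠ 0) (h : aevalAeval t s P = 0) :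
    Transcendental k s := by
  intro hs
  have hs' : IsIntegral k s := isAlgebraic_iff_isIntegral.1 hs
  have h1 := irr_map ht hP hd
  have h2 : aeval s (P.map (cm t)) = 0 := by rw [aeval_map_cm, h]
  have h7 : aevalAeval t s ((minpoly k s).map C) = 0 := by
    rw [← Bivariate.swap_C, Bivariate.aevalAeval_swap, aevalAeval_C, minpoly.aeval]
  have h3 : P.map (cm t) ∣ ((minpoly k s).map C).map (cm t) := by
    apply (h1.dvd_iff_aeval_eq_zero h2).1
    rw [aeval_map_cm, h7]
  have h4 := dvd_of_map ht hP hd h3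
  have h5 : Bivariate.swap P ∣ C (minpoly k s) := by
    obtain ⟨Q, hQ⟩ := h4
    refine ⟨Bivariate.swap Q, ?_⟩
    rw [← map_mul, ← hQ, Bivariate.swap_map_C]
  have h6 := natDegree_le_of_dvd h5 (C_ne_zero.2 (minpoly.ne_zero hs'))
  rw [natDegree_C] at h6
  exact hd' (by omega)

end Pool.Agent.J4H80.ZE
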