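import Pool.Agent.J4H80.ZE.FieldDeg

set_option autoImplicit false

/-!
# A curve is not mapped to itself by the correspondence of level 3
-/

namespace Pool.Agent.J4H80.ZE

open Polynomial IntermediateField

variable {k : Type*} [Field k]

theorem poly_no (p : k[X]) : p ^ 4 + X * p + X ^ 4 ≠ 0 := by
  intro h
  by_cases hn : 2 ≤ p.natDegree
  · have h1 : p ^ 4 = -(X * p + X ^ 4) := by linear_combination h
    have h2 : (p ^ 4).natDegree = 4 * p.natDegree := natDegree_pow p 4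
    have h3 : (-(X * p + X ^ 4)).natDegree ≤ max (p.natDegree + 1) 4 := by
      rw [natDegree_neg]
      refine (natDegree_add_le _ _).trans (max_le_max ?_ ?_)
      · refine natDegree_mul_le.trans ?_
        rw [natDegree_X]
        omega
      · rw [natDegree_X_pow]
    rw [← h1, h2] at h3
    have h4 : max (p.natDegree + 1) 4 < 4 * p.natDegree := by
      rw [max_lt_iff]
      constructor <;> omega
    omega
  · obtain ⟨a, b, rfl⟩ := exists_eq_X_add_C_of_natDegree_le_one (show p.natDegree ≤ 1 by omega)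
    have h0 := congrArg (eval 0) h
    have h0' : b ^ 4 = 0 := by simpa using h0
    obtain rfl : b = 0 := pow_eq_zero_iff (by norm_num) |>.1 h0'
    have h5 : C (a ^ 4) * X ^ 4 + C a * X ^ 2 + X ^ 4 = (0 : k[X]) := by
      rw [← h, C_0, C_pow]
      ring
    have h6 := congrArg (fun q => coeff q 2) h5
    simp only [coeff_add, coeff_C_mul, coeff_X_pow, coeff_zero] at h6
    norm_num at h6
    subst h6
    simp at h5

theorem not_mem {Ω : Type*} [Field Ω] [Algebra k Ω] {z w : Ω} (hz : Transcendental k z)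
    (h : w ^ 4 + z * w + z ^ 4 = 0) : w ∉ k⟮z⟯ := by
  intro hw
  let e := RatFunc.algEquivOfTranscendental z hz
  set r : RatFunc k := e.symm ⟨w, hw⟩ with hr
  have he : (e r : Ω) = w := by rw [hr, AlgEquiv.apply_symm_apply]
  have h1 : r ^ 4 + RatFunc.X * r + RatFunc.X ^ 4 = 0 := by
    apply e.injective
    apply Subtype.ext
    rw [map_add, map_add, map_mul, map_pow, map_pow, map_zero]
    push_cast
    rw [he, RatFunc.algEquivOfTranscendental_X]
    exact h
  have h2 : IsIntegral k[X] r := by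
    refine ⟨X ^ 4 + C X * X + C (X ^ 4), ?_, ?_⟩
    · rw [add_assoc]
      apply monic_X_pow_add
      refine (degree_linear_le).trans_lt (by norm_num)
    · simp only [eval₂_add, eval₂_mul, eval₂_pow, eval₂_X, eval₂_C, map_pow, RatFunc.algebraMap_X]
      exact h1
  obtain ⟨p, hp⟩ := IsIntegrallyClosed.isIntegral_iff.1 h2
  apply poly_no p
  apply IsFractionRing.injective k[X] (RatFunc k)
  rw [map_add, map_add, map_mul, map_pow, map_pow, map_zero, hp, RatFunc.algebraMap_X]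
  exact h1

theorem irr3 : Irreducible (X ^ 3 - C X : k[X][X]) := by
  have h : Bivariate.swap (-(X - C (X ^ 3)) : k[X][X]) = X ^ 3 - C X := by
    rw [map_neg, map_sub, Bivariate.swap_Y, Bivariate.swap_C]
    simp
  rw [← h, MulEquiv.irreducible_iff]
  exact (Associated.neg_left (Associated.refl _)).symm.irreducible (irreducible_X_sub_C _)

theorem no_rel {Ω : Type*} [Field Ω] [Algebra k Ω] {x z w : Ω}
    (hx : Transcendental k x) {P : k[X][X]} (hP : Irreducible P)
    (hd : P.natDegree ≠ 0) (hd' : (Bivariate.swap P).natDegree ≠ 0) (h1 : aevalAeval x z P = 0)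
    (h3 : aevalAeval (x ^ 3) w P = 0) (hΦ : w ^ 4 + z * w + z ^ 4 = 0) : False := by
  have hx3 : Transcendental k (x ^ 3) := hx.pow (by norm_num)
  have hz : Transcendental k z := trans_of hx hP hd hd' h1
  have hw : Transcendental k w := trans_of hx3 hP hd hd' h3
  have hPs : Irreducible (Bivariate.swap P) := (MulEquiv.irreducible_iff _).2 hP
  have h1s : aevalAeval z x (Bivariate.swap P) = 0 := by rw [Bivariate.aevalAeval_swap, h1]
  have h3s : aevalAeval w (x ^ 3) (Bivariate.swap P) = 0 := by rw [Bivariate.aevalAeval_swap, h3]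
  have r1 := rel_pair hx hP hd h1
  have r2 := rel_pair hx3 hP hd h3
  have r3 := rel_pair hz hPs hd' h1s
  have r4 := rel_pair hw hPs hd' h3s
  have r5 : relfinrank k⟮x ^ 3⟯ k⟮x ^ 3, x⟯ = 3 := by
    have := rel_pair (s := x) hx3 irr3 (by rw [natDegree_X_pow_sub_C]; norm_num) (by simp)
    rwa [natDegree_X_pow_sub_C] at this
  have hIw : IsIntegral k⟮x, z⟯ w := by
    let z' : k⟮x, z⟯ := ⟨z, subset_adjoin _ _ (by simp)⟩
    refine ⟨X ^ 4 + (C z' * X + C (z' ^ 4)), ?_, ?_⟩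
    · apply monic_X_pow_add
      exact (degree_linear_le).trans_lt (by norm_num)
    · simp only [eval₂_add, eval₂_mul, eval₂_pow, eval₂_X, eval₂_C, map_pow]
      change w ^ 4 + (z * w + z ^ 4) = 0
      rw [← add_assoc]
      exact hΦ
  set E := (k⟮x, z⟯⟮w⟯).restrictScalars k with hE
  have r6 : relfinrank k⟮x, z⟯ E = (minpoly k⟮x, z⟯ w).natDegree := rel_deg hIw
  have hn1 : 0 < relfinrank k⟮x, z⟯ E := by
    rw [r6]
    exact minpoly.natDegree_pos hIw
  have hxzE : k⟮x, z⟯ ≤ E := by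
    intro y hy
    exact (k⟮x, z⟯⟮w⟯).algebraMap_mem ⟨y, hy⟩
  have mx : x ∈ E := hxzE (subset_adjoin _ _ (by simp))
  have mz : z ∈ E := hxzE (subset_adjoin _ _ (by simp))
  have mw : w ∈ E := by
    rw [hE, IntermediateField.mem_restrictScalars]
    exact mem_adjoin_simple_self _ w
  have mx3 : x ^ 3 ∈ E := pow_mem mx 3
  have l1 : k⟮x⟯ ≤ k⟮x, z⟯ := adjoin_simple_le_iff.2 (subset_adjoin _ _ (by simp))
  have l2 : k⟮z⟯ ≤ k⟮x, z⟯ := adjoin_simple_le_iff.2 (subset_adjoin _ _ (by simp))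
  have l3 : k⟮x ^ 3⟯ ≤ k⟮x ^ 3, w⟯ := adjoin_simple_le_iff.2 (subset_adjoin _ _ (by simp))
  have l4 : k⟮w⟯ ≤ k⟮x ^ 3, w⟯ := adjoin_simple_le_iff.2 (subset_adjoin _ _ (by simp))
  have l5 : k⟮x ^ 3, w⟯ ≤ E := by
    rw [adjoin_le_iff]
    rintro y (rfl | rfl)
    · exact mx3
    · exact mw
  have l6 : k⟮z, w⟯ ≤ E := by
    rw [adjoin_le_iff]
    rintro y (rfl | rfl)
    · exact mz
    · exact mw
  have l7 : k⟮z⟯ ≤ k⟮z, w⟯ := adjoin_simple_le_iff.2 (subset_adjoin _ _ (by simp))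
  have l8 : k⟮w⟯ ≤ k⟮z, w⟯ := adjoin_simple_le_iff.2 (subset_adjoin _ _ (by simp))
  have l9 : k⟮x ^ 3⟯ ≤ k⟮x⟯ :=
    adjoin_simple_le_iff.2 (pow_mem (mem_adjoin_simple_self _ x) 3)
  have e5 : k⟮x ^ 3, x⟯ = k⟮x⟯ := by
    apply le_antisymm
    · rw [adjoin_le_iff]
      rintro y (rfl | rfl)
      · exact pow_mem (mem_adjoin_simple_self _ x) 3
      · exact mem_adjoin_simple_self _ _
    · exact adjoin_simple_le_iff.2 (subset_adjoin _ _ (by simp))
  rw [e5] at r5
  have e3 : k⟮z, x⟯ = k⟮x, z⟯ := by rw [Set.pair_comm]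
  have e4 : k⟮w, x ^ 3⟯ = k⟮x ^ 3, w⟯ := by rw [Set.pair_comm]
  rw [e3] at r3
  rw [e4] at r4
  -- the four chains
  have c1 : relfinrank k⟮x ^ 3⟯ E = 3 * (P.natDegree * relfinrank k⟮x, z⟯ E) := by
    rw [← relfinrank_mul_relfinrank l9 (l1.trans hxzE), r5, ← relfinrank_mul_relfinrank l1 hxzE, r1]
  have c2 : relfinrank k⟮x ^ 3⟯ E = P.natDegree * relfinrank k⟮x ^ 3, w⟯ E := by
    rw [← relfinrank_mul_relfinrank l3 l5, r2]
  have c3 : relfinrank k⟮z⟯ E = (Bivariate.swap P).natDegree * relfinrank k⟮x, z⟯ E := by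
    rw [← relfinrank_mul_relfinrank l2 hxzE, r3]
  have c4 : relfinrank k⟮z⟯ E =
      relfinrank k⟮z⟯ k⟮z, w⟯ * relfinrank k⟮z, w⟯ E := by
    rw [← relfinrank_mul_relfinrank l7 l6]
  have c5 : relfinrank k⟮w⟯ E = (Bivariate.swap P).natDegree * relfinrank k⟮x ^ 3, w⟯ E := by
    rw [← relfinrank_mul_relfinrank l4 l5, r4]
  have c6 : relfinrank k⟮w⟯ E =
      relfinrank k⟮w⟯ k⟮z, w⟯ * relfinrank k⟮z, w⟯ E := by
    rw [← relfinrank_mul_relfinrank l8 l6]
  have b1 : relfinrank k⟮z⟯ k⟮z, w⟯ ≠ 1 := by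
    intro h
    rw [relfinrank_eq_one_iff] at h
    exact not_mem hz hΦ (h (subset_adjoin _ _ (by simp)))
  have b2 : relfinrank k⟮w⟯ k⟮z, w⟯ ≤ 4 := by
    let w' : k⟮w⟯ := ⟨w, mem_adjoin_simple_self _ w⟩
    have hm : (X ^ 4 + (C w' * X + C (w' ^ 4)) : (k⟮w⟯)[X]).Monic := by
      apply monic_X_pow_add
      exact (degree_linear_le).trans_lt (by norm_num)
    have hr : aeval z (X ^ 4 + (C w' * X + C (w' ^ 4)) : (k⟮w⟯)[X]) = 0 := by
      simp only [map_add, map_mul, map_pow, aeval_X, aeval_C]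
      change z ^ 4 + (w * z + w ^ 4) = 0
      linear_combination hΦ
    have hI : IsIntegral k⟮w⟯ z := ⟨_, hm, hr⟩
    have e8 : k⟮z, w⟯ = (k⟮w⟯⟮z⟯).restrictScalars k := by
      rw [adjoin_simple_adjoin_simple, Set.pair_comm]
    rw [e8, rel_deg hI]
    refine (natDegree_le_natDegree (minpoly.min _ _ hm hr)).trans ?_
    refine natDegree_le_of_degree_le ?_
    refine (degree_add_le _ _).trans (max_le ?_ ?_)
    · rw [degree_X_pow]
    · exact (degree_linear_le).trans (by norm_num)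
  generalize relfinrank k⟮x, z⟯ E = n1 at *
  generalize relfinrank k⟮x ^ 3, w⟯ E = n2 at *
  generalize relfinrank k⟮z, w⟯ E = e at *
  generalize relfinrank k⟮z⟯ k⟮z, w⟯ = e1 at *
  generalize relfinrank k⟮w⟯ k⟮z, w⟯ = e2 at *
  have hn2 : n2 = 3 * n1 := by
    rw [c1] at c2
    have : P.natDegree * (3 * n1) = P.natDegree * n2 := by linarith
    exact (Nat.eq_of_mul_eq_mul_left (Nat.pos_of_ne_zero hd) this).symm
  have hpos : 0 < e1 * e := by
    rw [← c4, c3]
    exact Nat.mul_pos (Nat.pos_of_ne_zero hd') hn1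
  have he : 0 < e := Nat.pos_of_mul_pos_left hpos
  have he1 : 0 < e1 := Nat.pos_of_mul_pos_right hpos
  have h12 : e2 = 3 * e1 := by
    have : e * e2 = e * (3 * e1) := by
      have h6 : e2 * e = 3 * (e1 * e) := by
        rw [← c6, c5, hn2, ← c4, c3]
        ring
      linarith
    exact Nat.eq_of_mul_eq_mul_left he this
  omega

end Pool.Agent.J4H80.ZE
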