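import Pool.Agent.J4H80.ZE.NoRel
import Pool.Agent.J4H80.ZE.Bideg
import Pool.Agent.J4H80.IG.Fld

set_option autoImplicit false

/-!
# The zero estimate for polynomials in `X` and `Db`
-/

namespace Pool.Agent.J4H80.ZE

open Polynomial Pool.Agent.H397R2.PP

abbrev S := Pool.Agent.TH693.PP.S

abbrev k := ZMod 2

/-- the value of a polynomial at `(X, Db)` -/
noncomputable def ev : k[X][X] →ₐ[k] S := aevalAeval (PowerSeries.X : S) (Db : S)

/-- `Db(X ^ 3)` -/
noncomputable def D3 : S := PowerSeries.expand 3 (by norm_num) Db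

theorem rel3 : D3 ^ 4 + Db * D3 + Db ^ 4 = 0 := by
  have h := modular_equation
  have h2 : (2 : S) = 0 := Pool.Agent.TH693.PP.two_zero
  rw [D3, h]
  linear_combination (PowerSeries.expand 3 (by norm_num) Db ^ 4 +
    Db * PowerSeries.expand 3 (by norm_num) Db) * h2

/-- the coefficient map `p(X) ↦ p(X ^ 3)` -/
noncomputable def ph : k[X] →+* k[X][X] := (C : k[X] →+* k[X][X]).comp (expand k 3 : k[X] →ₐ[k] k[X])

/-- the modular polynomial -/
noncomputable def Ph : k[X][X][X] := X ^ 4 + (C X * X + C (X ^ 4))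

/-- the elimination polynomial -/
noncomputable def P1 (P : k[X][X]) : k[X][X] := Ph.resultant (P.map ph) 4 P.natDegree

theorem Ph_monic : Ph.Monic := by
  unfold Ph
  apply monic_X_pow_add
  exact (degree_linear_le).trans_lt (by norm_num)

theorem Ph_natDegree : Ph.natDegree = 4 := by
  unfold Ph
  rw [natDegree_add_eq_left_of_natDegree_lt, natDegree_X_pow]
  rw [natDegree_X_pow]
  exact (natDegree_linear_le).trans_lt (by norm_num)

theorem Bd_P1 {a b : ℕ} {P : k[X][X]} (h : Bd a b P) : Bd (12 * a) (4 * b) (P1 P) := by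
  unfold P1
  have h1 := Bd.resultant Ph (P.map ph) 4 P.natDegree 0 4 (3 * a) 0 (by
    intro i
    unfold Ph
    rw [coeff_add, coeff_add, coeff_X_pow, coeff_C_mul, coeff_X, coeff_C]
    have hX : Bd 0 4 (X : k[X][X]) := by
      constructor
      · rw [natDegree_X]; norm_num
      · intro i; rw [coeff_X]; split_ifs
        · rw [natDegree_one]
        · rw [natDegree_zero]
    have hX4 : Bd 0 4 (X ^ 4 : k[X][X]) := by
      constructor
      · rw [natDegree_X_pow]
      · intro i; rw [coeff_X_pow]; split_ifs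
        · rw [natDegree_one]
        · rw [natDegree_zero]
    refine Bd.add ?_ (Bd.add ?_ ?_)
    · split_ifs
      · exact Bd.one.mono le_rfl (by norm_num)
      · exact Bd.zero _ _
    · split_ifs
      · rw [mul_one]; exact hX
      · rw [mul_zero]; exact Bd.zero _ _
    · split_ifs
      · exact hX4
      · exact Bd.zero _ _) (by
    intro i
    rw [coeff_map]
    constructor
    · exact (natDegree_C _).le
    · intro j
      unfold ph
      rw [RingHom.comp_apply, coeff_C]
      split_ifs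
      · change (expand k 3 (P.coeff i)).natDegree ≤ _
        rw [natDegree_expand, mul_comm]
        exact Nat.mul_le_mul_left _ (h.2 i)
      · rw [natDegree_zero]; exact Nat.zero_le _)
  refine h1.mono ?_ ?_
  · omega
  · have := h.1
    omega

theorem ev_C (p : k[X]) : ev (C p) = aeval (PowerSeries.X : S) p := aevalAeval_C _ _ _

theorem ev_Y : ev X = Db := aevalAeval_Y _ _

theorem ev_expand (P : k[X][X]) :
    aevalAeval ((PowerSeries.X : S) ^ 3) D3 P = PowerSeries.expand 3 (by norm_num) (ev P) := by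
  have h : (aevalAeval ((PowerSeries.X : S) ^ 3) D3 : k[X][X] →ₐ[k] S) =
      (PowerSeries.expand 3 (by norm_num) : S →ₐ[k] S).comp ev := by
    apply (aevalAevalEquiv k S).symm.injective
    simp only [aevalAevalEquiv_symm_apply, AlgHom.comp_apply, Equiv.symm_apply_apply]
    rw [ev_C, ev_Y, aeval_X, PowerSeries.expand_X]
    simp [D3]
  exact congrArg (fun f : k[X][X] →ₐ[k] S => f P) h

theorem ev_ph (p : k[X]) : ev (ph p) = aeval ((PowerSeries.X : S) ^ 3) p := by
  unfold ph
  rw [RingHom.comp_apply, ev_C]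
  change aeval (PowerSeries.X : S) (expand k 3 p) = _
  rw [expand_aeval]

theorem ev_P1 (P : k[X][X]) : ∃ q : S, ev (P1 P) = PowerSeries.expand 3 (by norm_num) (ev P) * q := by
  obtain ⟨p, q, _, _, h⟩ := exists_mul_add_mul_eq_C_resultant (m := 4) (n := P.natDegree) Ph (P.map ph)
    Ph_natDegree.le natDegree_map_le (Or.inl (by norm_num))
  let ψ : k[X][X][X] →+* S := eval₂RingHom (ev : k[X][X] →+* S) D3
  have h1 : ψ Ph = 0 := by
    have : ψ Ph = D3 ^ 4 + (Db * D3 + Db ^ 4) := by
      unfold Ph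
      change eval₂ (ev : k[X][X] →+* S) D3 _ = _
      rw [eval₂_add, eval₂_add, eval₂_mul, eval₂_X_pow, eval₂_C, eval₂_X, eval₂_C, map_pow]
      change D3 ^ 4 + (ev X * D3 + ev X ^ 4) = _
      rw [ev_Y]
    rw [this, ← add_assoc, rel3]
  have h2 : ψ (P.map ph) = PowerSeries.expand 3 (by norm_num) (ev P) := by
    rw [← ev_expand]
    change eval₂ (ev : k[X][X] →+* S) D3 (P.map ph) = _
    rw [eval₂_map]
    have h4 : (ev : k[X][X] →+* S).comp ph = (aeval ((PowerSeries.X : S) ^ 3) : k[X] →ₐ[k] S) :=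
      RingHom.ext fun p => ev_ph p
    rw [h4]
    have h5 : (eval₂RingHom ((aeval ((PowerSeries.X : S) ^ 3) : k[X] →ₐ[k] S) : k[X] →+* S) D3) =
        ((aevalAeval ((PowerSeries.X : S) ^ 3) D3 : k[X][X] →ₐ[k] S) : k[X][X] →+* S) := by
      apply Polynomial.ringHom_ext'
      · apply RingHom.ext
        intro p
        rw [RingHom.comp_apply, RingHom.comp_apply, coe_eval₂RingHom, eval₂_C]
        exact (aevalAeval_C _ _ p).symm
      · rw [coe_eval₂RingHom, eval₂_X]
        exact (aevalAeval_Y _ _).symm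
    exact congrArg (fun f : k[X][X] →+* S => f P) h5
  have h3 : ψ (C (P1 P)) = ev (P1 P) := by
    change eval₂ (ev : k[X][X] →+* S) D3 (C (P1 P)) = _
    rw [eval₂_C]
    rfl
  refine ⟨ψ q, ?_⟩
  rw [← h3, ← h2, ← map_mul]
  unfold P1
  rw [← h, map_add, map_mul ψ Ph p, h1, zero_mul, zero_add]

theorem dvd_ev_P1 {n : ℕ} {P : k[X][X]} (h : (PowerSeries.X : S) ^ n ∣ ev P) :
    (PowerSeries.X : S) ^ n ∣ ev (P1 P) := by
  obtain ⟨q, hq⟩ := ev_P1 P
  rw [hq]
  apply Dvd.dvd.mul_right
  obtain ⟨g, hg⟩ := h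
  rw [hg, map_mul, map_pow, PowerSeries.expand_X, ← pow_mul]
  exact (pow_dvd_pow _ (by omega)).mul_right _

end Pool.Agent.J4H80.ZE
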