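import Pool.Agent.J4H80.ZE.ZeroEst

set_option autoImplicit false

/-!
# The zero estimate, continued
-/

namespace Pool.Agent.J4H80.ZE

open Polynomial Pool.Agent.H397R2.PP

/-- the variable in the algebraic closure of the field of rational functions is transcendental -/
theorem trX : Transcendental k (algebraMap (RatFunc k) (AlgebraicClosure (RatFunc k)) RatFunc.X) := by
  have h1 : Transcendental k (RatFunc.X : RatFunc k) := by
    rw [← RatFunc.algebraMap_X]
    exact (transcendental_algebraMap_iff (IsFractionRing.injective k[X] (RatFunc k))).2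
      (transcendental_X k)
  exact (transcendental_algebraMap_iff (algebraMap (RatFunc k) (AlgebraicClosure (RatFunc k))).injective).2 h1

theorem eval_pair {Ω : Type*} [Field Ω] [Algebra k Ω] (t s : Ω) (P : k[X][X]) :
    eval₂ ((aeval t : k[X] →ₐ[k] Ω) : k[X] →+* Ω) s P = aevalAeval t s P := by
  have h5 : (eval₂RingHom ((aeval t : k[X] →ₐ[k] Ω) : k[X] →+* Ω) s) =
      ((aevalAeval t s : k[X][X] →ₐ[k] Ω) : k[X][X] →+* Ω) := by
    apply Polynomial.ringHom_ext'
    · apply RingHom.ext
      intro p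
      rw [RingHom.comp_apply, RingHom.comp_apply, coe_eval₂RingHom, eval₂_C]
      exact (aevalAeval_C _ _ p).symm
    · rw [coe_eval₂RingHom, eval₂_X]
      exact (aevalAeval_Y _ _).symm
  exact congrArg (fun f : k[X][X] →+* Ω => f P) h5

theorem not_dvd {P : k[X][X]} (hP : Irreducible P) (hd : P.natDegree ≠ 0)
    (hd' : (Bivariate.swap P).natDegree ≠ 0) :
    ¬ P.map (algebraMap k[X] (RatFunc k)) ∣ (P1 P).map (algebraMap k[X] (RatFunc k)) := by
  intro hdvd
  let Ω := AlgebraicClosure (RatFunc k)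
  let x : Ω := algebraMap (RatFunc k) Ω RatFunc.X
  have hx : Transcendental k x := trX
  have hinj : Function.Injective (algebraMap k[X] (RatFunc k)) := IsFractionRing.injective _ _
  -- a root of `P`
  obtain ⟨α, hα⟩ : ∃ α : Ω, aeval α (P.map (algebraMap k[X] (RatFunc k))) = 0 := by
    apply IsAlgClosed.exists_aeval_eq_zero
    rw [degree_map_eq_of_injective hinj]
    intro h0
    exact hd (natDegree_eq_of_degree_eq_some h0)
  have hev : ∀ Q : k[X][X], aeval α (Q.map (algebraMap k[X] (RatFunc k))) = aevalAeval x α Q := by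
    intro Q
    rw [← eval_pair, aeval_def, eval₂_map]
    congr 1
    apply Polynomial.ringHom_ext
    · intro a
      rw [RingHom.comp_apply]
      simp [x, Ω]
      rfl
    · rw [RingHom.comp_apply]
      simp [x]
  have hα1 : aevalAeval x α P = 0 := by rw [← hev, hα]
  have hα2 : aevalAeval x α (P1 P) = 0 := by
    rw [← hev]
    obtain ⟨Q, hQ⟩ := hdvd
    rw [hQ, map_mul, hα, zero_mul]
  -- the resultant vanishes in `Ω`
  let ψ : k[X][X] →+* Ω := ((aevalAeval x α : k[X][X] →ₐ[k] Ω) : k[X][X] →+* Ω)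
  have hres : (Ph.map ψ).resultant ((P.map ph).map ψ) 4 P.natDegree = 0 := by
    rw [resultant_map_map]
    exact hα2
  have hPh : Ph.map ψ = X ^ 4 + (C α * X + C (α ^ 4)) := by
    unfold Ph
    rw [Polynomial.map_add, Polynomial.map_add, Polynomial.map_mul, Polynomial.map_pow, map_X,
      map_C, map_C, map_pow]
    have : ψ X = α := aevalAeval_Y _ _
    rw [this]
  have hdeg1 : (Ph.map ψ).natDegree = 4 := by
    rw [Ph_monic.natDegree_map, Ph_natDegree]
  have hx3 : Transcendental k (x ^ 3) := hx.pow (by norm_num)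
  have hcomp : ψ.comp ph = ((aeval (x ^ 3) : k[X] →ₐ[k] Ω) : k[X] →+* Ω) := by
    apply RingHom.ext
    intro p
    rw [RingHom.comp_apply]
    unfold ph
    rw [RingHom.comp_apply]
    change aevalAeval x α (C (expand k 3 p)) = aeval (x ^ 3) p
    rw [aevalAeval_C, expand_aeval]
  have hdeg2 : ((P.map ph).map ψ).natDegree = P.natDegree := by
    rw [Polynomial.map_map, hcomp]
    apply natDegree_map_eq_of_injective
    exact transcendental_iff_injective.1 hx3
  have h0 : (Ph.map ψ).resultant ((P.map ph).map ψ) = 0 := by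
    rw [hdeg1, hdeg2]
    exact hres
  rw [resultant_eq_zero_iff, isCoprime_iff_aeval_ne_zero_of_isAlgClosed Ω Ω] at h0
  obtain ⟨-, h0⟩ := h0
  push Not at h0
  obtain ⟨w, hw1, hw2⟩ := h0
  apply no_rel (z := α) (w := w) hx hP hd hd' hα1
  · rw [Polynomial.map_map, hcomp] at hw2
    rw [← eval_pair]
    simpa [aeval_def, eval₂_map] using hw2
  · rw [hPh] at hw1
    simp at hw1
    linear_combination hw1

theorem res_ne {P : k[X][X]} (hP : Irreducible P) (hd : P.natDegree ≠ 0)
    (hd' : (Bivariate.swap P).natDegree ≠ 0) :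
    P.resultant (P1 P) ≠ 0 := by
  intro h0
  have hinj : Function.Injective (algebraMap k[X] (RatFunc k)) := IsFractionRing.injective _ _
  have h1 : (P.map (algebraMap k[X] (RatFunc k))).resultant
      ((P1 P).map (algebraMap k[X] (RatFunc k))) = 0 := by
    rw [natDegree_map_eq_of_injective hinj, natDegree_map_eq_of_injective hinj, resultant_map_map,
      h0, map_zero]
  rw [resultant_eq_zero_iff] at h1
  have h2 := ((hP.isPrimitive hd).irreducible_iff_irreducible_map_fraction_map (K := RatFunc k)).1 hP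
  exact h1.2 ((h2.coprime_iff_not_dvd).2 (not_dvd hP hd hd'))

theorem dvd_aeval_X {p : k[X]} (hp : p ≠ 0) {n : ℕ} (h : (PowerSeries.X : S) ^ n ∣ aeval (PowerSeries.X : S) p) :
    n ≤ p.natDegree := by
  by_contra hlt
  push Not at hlt
  rw [PowerSeries.X_pow_dvd_iff] at h
  apply hp
  ext i
  rw [coeff_zero]
  have e : aeval (PowerSeries.X : S) p = (p : S) := by
    rw [← eval₂_C_X_eq_coe]
    rfl
  by_cases hi : i < n
  · have := h i hi
    rwa [e, coeff_coe] at this
  · exact coeff_eq_zero_of_natDegree_lt (by omega)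

theorem irr_case {P : k[X][X]} (hP : Irreducible P) (hd : P.natDegree ≠ 0)
    (hd' : (Bivariate.swap P).natDegree ≠ 0) {a b : ℕ} (h : Bd a b P) {n : ℕ}
    (hn : (PowerSeries.X : S) ^ n ∣ ev P) : n ≤ 16 * a * b := by
  have h1 := Bd_P1 h
  have hR := res_ne hP hd hd'
  have h2 := natDegree_resultant P (P1 P) P.natDegree (P1 P).natDegree a (12 * a) h.2 h1.2
  obtain ⟨p, q, _, _, h3⟩ := exists_mul_add_mul_eq_C_resultant (m := P.natDegree)
    (n := (P1 P).natDegree) P (P1 P) le_rfl le_rfl (Or.inl hd)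
  have h4 : (PowerSeries.X : S) ^ n ∣ aeval (PowerSeries.X : S) (P.resultant (P1 P)) := by
    rw [← ev_C, ← h3, map_add, map_mul, map_mul]
    exact dvd_add (hn.mul_right _) ((dvd_ev_P1 hn).mul_right _)
  have h5 := dvd_aeval_X hR h4
  have h6 : P.natDegree * (12 * a) ≤ b * (12 * a) := Nat.mul_le_mul_right _ h.1
  have h7 : (P1 P).natDegree * a ≤ 4 * b * a := Nat.mul_le_mul_right _ h1.1
  calc n ≤ b * (12 * a) + 4 * b * a := h5.trans (h2.trans (Nat.add_le_add h6 h7))
    _ = 16 * a * b := by ring

end Pool.Agent.J4H80.ZE
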